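import Pool.Agent.N293.KRK.Ten
import Pool.Agent.N293.KRK.Eight
import Pool.Agent.N293.KRK.Win

/-!
# King and rook against king: the boards on which White wins from Ka1, Rb2 against Kc3
-/

set_option autoImplicit false

namespace Pool.Agent.Results.MP_b88367_co.SmallestBoards

open Pool.Agent.N293.KRK

theorem le_of_not_le {m : ℕ∞} {a : ℕ} (h : ¬ ((a + 1 : ℕ) : ℕ∞) ≤ m) : m ≤ (a : ℕ∞) := by
  induction m using ENat.recTopCoe with
  | top => exact absurd le_top h
  | coe k =>
    rw [Nat.cast_le] at h ⊢
    omega

theorem start_onBoard {m n : ℕ∞} (hm : 3 ≤ m) (hn : 3 ≤ n) : OnBoard m n start.B :=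
  ⟨by simp [start], by simp [start], by simpa [start] using hm, by simpa [start] using hn⟩

/-- On the board with `m` files and `n` ranks (`3 ≤ m, n ≤ ∞`) with the north and east exits,
White can force checkmate from WK a1, WR b2, BK c3 exactly if `9 ≤ m` and `11 ≤ n`, or
`11 ≤ m` and `9 ≤ n`; then White can do so within 39 moves. -/
theorem result (m n : ℕ∞) (hm : 3 ≤ m) (hn : 3 ≤ n) :
    (Wins m n start → (9 ≤ m ∧ 11 ≤ n) ∨ (11 ≤ m ∧ 9 ≤ n)) ∧
    ((9 ≤ m ∧ 11 ≤ n) ∨ (11 ≤ m ∧ 9 ≤ n) → MateIn m n 39 start) := by
  constructor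
  · intro h
    by_contra hcon
    push Not at hcon
    by_cases h9 : (9 : ℕ∞) ≤ m
    · by_cases h9' : (9 : ℕ∞) ≤ n
      · have h1 : m ≤ 10 := by
          have := le_of_not_le (m := m) (a := 10) (fun h11 => by
            have := hcon.2 (by exact_mod_cast h11)
            exact absurd h9' (not_le_of_gt this))
          exact_mod_cast this
        have h2 : n ≤ 10 := by
          have := le_of_not_le (m := n) (a := 10) (fun h11 => by
            have := hcon.1 h9
            exact absurd h11 (not_le_of_gt (by exact_mod_cast this)))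
          exact_mod_cast this
        exact not_wins_ten (h.mono h1 h2 (start_onBoard hm hn))
      · have h1 : n ≤ 8 := by
          have := le_of_not_le (m := n) (a := 8) (by exact_mod_cast h9')
          exact_mod_cast this
        exact not_wins_eight (h.swap.mono h1 le_top (start_onBoard hn hm))
    · have h1 : m ≤ 8 := by
        have := le_of_not_le (m := m) (a := 8) (by exact_mod_cast h9)
        exact_mod_cast this
      exact not_wins_eight (h.mono h1 le_top (start_onBoard hm hn))
  · have h0 : OnBoard 9 11 start.B := start_onBoard (by norm_num) (by norm_num)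
    have h0' : OnBoard 11 9 start.B := start_onBoard (by norm_num) (by norm_num)
    rintro (⟨h1, h2⟩ | ⟨h1, h2⟩)
    · exact mateIn_start.mono h1 h2 h0
    · exact MateIn.mono h1 h2 h0' mateIn_start.swap

end Pool.Agent.Results.MP_b88367_co.SmallestBoards
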